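import Mathlib
import Pool.Prelude.Def_F_c31e40fa
import Pool.Agent.K3h79.MA.Fin

/-!
# Exact area asymptotics in the Multibrot sets of large degree

For every `k ≥ 1`, as `n → ∞`, the parameters of `M_n` without attracting cycle of period at most
`k`, and the parameters with an attracting cycle of exact period `k + 1`, both have area
`(π / 2 ^ (k - 1) + o(1)) * log^[k] n / n`, with a joint limit law for the modulus of the parameter
and for the directions of the first `k` steps of the critical orbit.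
-/

set_option autoImplicit false
open MeasureTheory Filter Topology

namespace Pool.Agent.Results.MP_c35c17_an.AreaAsymptotics

/-- The parameters of the Multibrot set `M_n` for which `z ^ n + c` has no attracting cycle of
period at most `k`. -/
def Rest (n k : ℕ) : Set ℂ :=
  {c | c ∈ N62a1eb23.multibrotSet n ∧
    ∀ m, 1 ≤ m → m ≤ k → ¬ ∃ z, N62a1eb23.IsAttractingCycle (fun z => z ^ n + c) m z}

/-- The parameters for which `z ^ n + c` has an attracting cycle of exact period `m`. -/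
def Exact (n m : ℕ) : Set ℂ :=
  {c | ∃ z, N62a1eb23.IsAttractingCycle (fun z => z ^ n + c) m z ∧
    Function.minimalPeriod (fun z => z ^ n + c) z = m}

/-- The relative displacement `(f_c^i(c) - c) / c` of the critical value after `i` steps. -/
noncomputable def disp (n : ℕ) (c : ℂ) (i : ℕ) : ℂ := ((fun z => z ^ n + c)^[i] c - c) / c

/-- The parameters `c` with `log (n |c| ^ (n - 1)) ≤ s log^[k] n` such that, for `1 ≤ i < k`, the
number `disp n c i` has positive real part and argument in `(α i, β i)`, and the number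
`- disp n c k` has positive real part and argument in `(α k, β k)`. -/
def Window (n k : ℕ) (s : ℝ) (α β : ℕ → ℝ) : Set ℂ :=
  {c | Real.log (n * ‖c‖ ^ (n - 1)) ≤ s * Real.log^[k] (n : ℝ) ∧
    (∀ i, 1 ≤ i → i < k → 0 < (disp n c i).re ∧ (disp n c i).arg ∈ Set.Ioo (α i) (β i)) ∧
    0 < (-disp n c k).re ∧ (-disp n c k).arg ∈ Set.Ioo (α k) (β k)}

open Pool.Agent.W747.MB Pool.Agent.TH363.CD Pool.Agent.K3h79.MA

/-- The cones of the window. -/
def cn (k : ℕ) (α β : ℕ → ℝ) : ℕ → Set ℂ := fun i =>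
  if i < k then arc (α i) (β i) else ngc (arc (α i) (β i))

/-- The complementary cones. -/
def cn' (k : ℕ) (α β : ℕ → ℝ) : ℕ → Set ℂ := fun i =>
  if i < k then carc (α i) (β i) else ngc (carc (α i) (β i))

theorem disp_eq {n : ℕ} (hn : 2 ≤ n) {c : ℂ} (hc : c ≠ 0) (i : ℕ) :
    disp n c i = ((n:ℝ)⁻¹ : ℝ) * X n c i := by
  have h1 : (fun z => z ^ n + c)^[i] c = c * A n c i := Pool.Agent.W410.MB.ATT.orbit hn c i
  unfold disp
  rw [h1]
  unfold A
  push_cast
  field_simp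
  ring

theorem arc_iff {n : ℕ} (hn : 2 ≤ n) {c : ℂ} (hc : c ≠ 0) (i : ℕ) (α β : ℝ) :
    X n c i ∈ arc α β ↔ 0 < (disp n c i).re ∧ (disp n c i).arg ∈ Set.Ioo α β := by
  have hn0 : (0:ℝ) < (n:ℝ)⁻¹ := by
    have : 0 < n := by omega
    have : (0:ℝ) < n := by exact_mod_cast this
    positivity
  rw [disp_eq hn hc, Complex.arg_real_mul _ hn0, Complex.re_ofReal_mul, mul_pos_iff_of_pos_left hn0]
  rfl

theorem ngc_iff {n : ℕ} (hn : 2 ≤ n) {c : ℂ} (hc : c ≠ 0) (i : ℕ) (α β : ℝ) :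
    X n c i ∈ ngc (arc α β) ↔ 0 < (-disp n c i).re ∧ (-disp n c i).arg ∈ Set.Ioo α β := by
  have hn0 : (0:ℝ) < (n:ℝ)⁻¹ := by
    have : 0 < n := by omega
    have : (0:ℝ) < n := by exact_mod_cast this
    positivity
  rw [disp_eq hn hc, ← mul_neg, Complex.arg_real_mul _ hn0, Complex.re_ofReal_mul,
    mul_pos_iff_of_pos_left hn0]
  rfl

theorem window_iff {n k : ℕ} (hn : 2 ≤ n) (hk : 1 ≤ k) {s : ℝ} {α β : ℕ → ℝ} {c : ℂ}
    (hc : c ≠ 0) : c ∈ Window n k s α β ↔ c ∈ Rad k s n ∩ XV (cn k α β) k n := by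
  have hn0 : (0:ℝ) < n := by
    have : 0 < n := by omega
    exact_mod_cast this
  have hcn : 0 < ‖c‖ := norm_pos_iff.2 hc
  have h1 : Real.log (n * ‖c‖ ^ (n - 1)) ≤ s * Real.log^[k] (n : ℝ) ↔ c ∈ Rad k s n := by
    rw [Real.log_le_iff_le_exp (by positivity)]
    rfl
  constructor
  · rintro ⟨h2, h3, h4⟩
    refine ⟨h1.1 h2, fun i e1 e2 => ?_⟩
    unfold cn
    by_cases h : i < k
    · simp only [h, if_true]
      exact (arc_iff hn hc i _ _).2 (h3 i e1 h)
    · simp only [h, if_false]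
      obtain rfl : i = k := by omega
      exact (ngc_iff hn hc i _ _).2 h4
  · rintro ⟨h2, h3⟩
    refine ⟨h1.2 h2, fun i e1 e2 => ?_, ?_⟩
    · have := h3 i e1 e2.le
      unfold cn at this
      simp only [e2, if_true] at this
      exact (arc_iff hn hc i _ _).1 this
    · have := h3 k hk le_rfl
      unfold cn at this
      simp only [lt_irrefl, if_false] at this
      exact (ngc_iff hn hc k _ _).1 this

theorem window_ne {n k : ℕ} {s : ℝ} {α β : ℕ → ℝ} {c : ℂ} (h : c ∈ Window n k s α β) :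
    c ≠ 0 := by
  rintro rfl
  have h1 := h.2.2.1
  unfold disp at h1
  rw [div_zero, neg_zero] at h1
  simp at h1

theorem OC_cn (k : ℕ) (α β : ℕ → ℝ) (i : ℕ) : OC (cn k α β i) := by
  unfold cn
  split_ifs
  · exact OC_arc _ _
  · exact OC_ngc (OC_arc _ _)

theorem OC_cn' (k : ℕ) (α β : ℕ → ℝ) (i : ℕ) : OC (cn' k α β i) := by
  unfold cn'
  split_ifs
  · exact OC_carc _ _
  · exact OC_ngc (OC_carc _ _)

theorem cn_sub (k : ℕ) (α β : ℕ → ℝ) (i : ℕ) : cn k α β i ⊆ sg k i := by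
  unfold cn sg
  split_ifs
  · exact arc_sub _ _
  · rw [HM_eq]
    exact ngc_mono (arc_sub _ _)

theorem cn_sub' (k : ℕ) (α β : ℕ → ℝ) (i : ℕ) : cn' k α β i ⊆ sg k i := by
  unfold cn' sg
  split_ifs
  · exact carc_sub _ _
  · rw [HM_eq]
    exact ngc_mono (carc_sub _ _)

theorem cn_disj (k : ℕ) (α β : ℕ → ℝ) (i : ℕ) : Disjoint (cn k α β i) (cn' k α β i) := by
  unfold cn cn'
  split_ifs
  · exact arc_disj _ _
  · rw [Set.disjoint_left]
    intro z h1 h2
    exact Set.disjoint_left.1 (arc_disj (α i) (β i)) (show -z ∈ arc (α i) (β i) from h1)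
      (show -z ∈ carc (α i) (β i) from h2)

theorem pr_cn (k : ℕ) {α β : ℕ → ℝ}
    (h : ∀ i, -(Real.pi / 2) ≤ α i ∧ α i ≤ β i ∧ β i ≤ Real.pi / 2) (i : ℕ) :
    pr (cn k α β i) = (β i - α i) / (2 * Real.pi) ∧
      pr (cn k α β i) + pr (cn' k α β i) = 1 / 2 := by
  obtain ⟨h1, h2, h3⟩ := h i
  unfold cn cn'
  split_ifs
  · exact ⟨pr_arc h1 h2 h3, pr_carc h1 h2 h3⟩
  · rw [pr_ngc (OC_arc _ _), pr_ngc (OC_carc _ _)]
    exact ⟨pr_arc h1 h2 h3, pr_carc h1 h2 h3⟩

theorem pow_two_pi {k : ℕ} (hk : 1 ≤ k) : 2 * Real.pi * (1 / 2 ^ k) = Real.pi / 2 ^ (k - 1) := by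
  obtain ⟨m, rfl⟩ : ∃ m, k = m + 1 := ⟨k - 1, by omega⟩
  rw [Nat.add_sub_cancel, pow_succ]
  field_simp

theorem result (k : ℕ) (hk : 1 ≤ k) :
    Tendsto (fun n : ℕ => volume.real (Rest n k) * n / Real.log^[k] (n : ℝ)) atTop
      (𝓝 (Real.pi / 2 ^ (k - 1))) ∧
    Tendsto (fun n : ℕ => volume.real (Exact n (k + 1)) * n / Real.log^[k] (n : ℝ)) atTop
      (𝓝 (Real.pi / 2 ^ (k - 1))) ∧
    ∀ (s : ℝ) (α β : ℕ → ℝ), 0 ≤ s → s ≤ 1 →
      (∀ i, -(Real.pi / 2) ≤ α i ∧ α i ≤ β i ∧ β i ≤ Real.pi / 2) →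
      Tendsto (fun n : ℕ => volume.real (Rest n k ∩ Window n k s α β) * n /
          Real.log^[k] (n : ℝ)) atTop
        (𝓝 (2 * Real.pi * (s * ∏ i ∈ Finset.Icc 1 k, (β i - α i) / (2 * Real.pi)))) ∧
      Tendsto (fun n : ℕ => volume.real (Exact n (k + 1) ∩ Window n k s α β) * n /
          Real.log^[k] (n : ℝ)) atTop
        (𝓝 (2 * Real.pi * (s * ∏ i ∈ Finset.Icc 1 k, (β i - α i) / (2 * Real.pi)))) := by
  have hsub : ∀ᶠ n : ℕ in atTop, Ex n (k + 1) ⊆ NN n k := by
    filter_upwards [eventually_ge_atTop 2] with n hn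
    exact Ex_sub_NN hn k
  have hup : UpB k (fun n => NN n k) (1 / 2 ^ k) := up_tot hk
  have hlow : LowM k (fun n => Ex n (k + 1)) (1 / 2 ^ k) :=
    (low_sg (k := k) (j := k) hk le_rfl zero_le_one (le_refl (1:ℝ))).mono
      (Eventually.of_forall fun n c hc => hc.1) le_rfl
  refine ⟨?_, ?_, ?_⟩
  · rw [← pow_two_pi hk]
    exact tendsto_of (by positivity) (hlow.mono hsub le_rfl) hup
  · rw [← pow_two_pi hk]
    exact tendsto_of (by positivity) hlow (hup.mono hsub le_rfl)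
  · intro s α β hs0 hs1 hαβ
    have hp : ∏ i ∈ Finset.Icc 1 k, pr (cn k α β i) =
        ∏ i ∈ Finset.Icc 1 k, (β i - α i) / (2 * Real.pi) :=
      Finset.prod_congr rfl fun i _ => (pr_cn k hαβ i).1
    have hp0 : 0 ≤ s * ∏ i ∈ Finset.Icc 1 k, (β i - α i) / (2 * Real.pi) := by
      rw [← hp]
      exact mul_nonneg hs0 (Finset.prod_nonneg fun i _ => pr_nonneg _)
    have h1 := up_dir hk hs0 hs1 (OC_cn k α β) (OC_cn' k α β) (cn_sub k α β) (cn_sub' k α β)
      (cn_disj k α β) (fun i => (pr_cn k hαβ i).2) k le_rfl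
    have h2 : UpB k (fun n => NN n k ∩ Window n k s α β)
        (s * ∏ i ∈ Finset.Icc 1 k, (β i - α i) / (2 * Real.pi)) := by
      refine h1.mono ?_ (le_of_eq ?_)
      · filter_upwards [eventually_ge_atTop 2] with n hn c hc
        obtain ⟨g1, g2⟩ := hc
        obtain ⟨g3, g4⟩ := (window_iff hn hk (window_ne g2)).1 g2
        refine ⟨g1, g3, fun i e1 e2 => ?_⟩
        simp only [mix, e2, if_true]
        exact g4 i e1 e2
      · rw [Nat.sub_self, pow_zero, div_one, hp]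
    have h3 : LowM k (fun n => Ex n (k + 1) ∩ Window n k s α β)
        (s * ∏ i ∈ Finset.Icc 1 k, (β i - α i) / (2 * Real.pi)) := by
      have h4 := low_Ex (k := k) (j := k) (V := cn k α β) hk le_rfl (OC_cn k α β)
        (fun i e1 e2 => by
          have := cn_sub k α β i
          simpa [sg, e2] using this)
        (by
          have := cn_sub k α β k
          simpa [sg] using this) hs0 hs1
      refine h4.mono ?_ (le_of_eq (by rw [hp]))
      filter_upwards [eventually_ge_atTop 2, (tLk k).eventually_ge_atTop 1] with n hn hL c hc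
      obtain ⟨g1, g2, g3, g4⟩ := hc
      have hc0 : c ≠ 0 := by
        rintro rfl
        have h5 : Lk k n ^ 2 ≤ Y n 0 := g3
        unfold Y at h5
        rw [norm_zero, zero_pow (by omega), mul_zero] at h5
        nlinarith
      exact ⟨g1, (window_iff hn hk hc0).2 ⟨g2, g4⟩⟩
    have hsub' : ∀ᶠ n : ℕ in atTop, Ex n (k + 1) ∩ Window n k s α β ⊆
        NN n k ∩ Window n k s α β := by
      filter_upwards [hsub] with n h c hc
      exact ⟨h hc.1, hc.2⟩
    exact ⟨tendsto_of hp0 (h3.mono hsub' le_rfl) h2, tendsto_of hp0 h3 (h2.mono hsub' le_rfl)⟩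

end Pool.Agent.Results.MP_c35c17_an.AreaAsymptotics
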