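import Mathlib
import Pool.Prelude.Def_F_c31e40fa
import Pool.Agent.K3h79.MA.Per

/-!
# The period of the attracting cycle in the Multibrot sets of large degree

In annuli `a ≤ n |c| ^ (n - 1) ≤ b`, where `a` and `b / a` are large and `b` is at most a
sufficiently high iterated logarithm of `n`, the exact period of the attracting cycle of
`z ^ n + c` minus one has asymptotically the geometric distribution with parameter `1 / 2`.
-/

set_option autoImplicit false
open MeasureTheory Filter Topology

namespace Pool.Agent.Results.MP_c35c17_an.GeometricPeriods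

/-- The parameters for which `z ^ n + c` has an attracting cycle of exact period `m`. -/
def Exact (n m : ℕ) : Set ℂ :=
  {c | ∃ z, N62a1eb23.IsAttractingCycle (fun z => z ^ n + c) m z ∧
    Function.minimalPeriod (fun z => z ^ n + c) z = m}

/-- The annulus of the parameters `c` with `a ≤ n |c| ^ (n - 1) ≤ b`. -/
def Annulus (n : ℕ) (a b : ℝ) : Set ℂ := {c | a ≤ n * ‖c‖ ^ (n - 1) ∧ n * ‖c‖ ^ (n - 1) ≤ b}

theorem result (K : ℕ) (ε : ℝ) (hε : 0 < ε) :
    ∃ (A : ℝ) (m : ℕ), ∀ᶠ n : ℕ in atTop, ∀ a b : ℝ, A ≤ a → A * a ≤ b →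
      A * b ≤ Real.log^[m] (n : ℝ) → ∀ k, 1 ≤ k → k ≤ K →
        |volume.real (Exact n (k + 1) ∩ Annulus n a b) - (1 / 2) ^ k * volume.real (Annulus n a b)| ≤
          ε * volume.real (Annulus n a b) := by
  obtain ⟨A, m, -, h⟩ := Pool.Agent.K3h79.MA.per_law K hε
  exact ⟨A, m, h⟩

end Pool.Agent.Results.MP_c35c17_an.GeometricPeriods
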