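import Mathlib
import Pool.Prelude.Def_F_c31e40fa
import Pool.Agent.Y298.CA.All
import Pool.Agent.Y298.CA.ScaAll
import Pool.Agent.Y298.CD.Fin

/-!
# Exact exponents of the density of hyperbolicity in the Multibrot sets

Let `M_d` be the Multibrot set and `H_d` the set of its parameters with an attracting cycle.

(1) Uniformly over every Collet-Eckmann class of parameters `c₀ ∈ M_d` with the recurrence exponent
`β` of the critical orbit, for every `σ` with `σ (1 + β) < d / (d - 1)`: the area of `M_d` in the disc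
of radius `r` about `c₀` is at most `C r ^ (2 σ)`; and for every `c ∈ M_d`, at distance `s` from `c₀`,
there are superattracting parameters, and parameters outside `M_d`, within `C s ^ σ` of `c`; the area
of the filled Julia set of `c` is at most `C s ^ (2 σ / d)`; and the conformal radius about `c` of the
component of the complement of the closure of the hyperbolic parameters which contains `c` (if any)
is at most `C s ^ σ`. Without any recurrence condition this holds if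
`σ (1 - log lam / (d log (2 d))) < 1`, so for some `σ > 1`.

(2) If the derivatives of the iterates at the critical value have a positive Lyapunov exponent then
these bounds hold for every `σ < d / (d - 1)`, and `d / (d - 1)` is the exact exponent: the area of
`M_d`, and that of `H_d ∩ M_d`, in the disc of radius `r` about `c₀` is `r ^ (2 d / (d - 1) + o(1))`,
and the largest disc in `M_d`, and in `H_d ∩ M_d`, within `r` of `c₀` has the radius
`r ^ (d / (d - 1) + o(1))`.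

(3) This applies to harmonic-almost every point `c₀` of the boundary of `M_d`.
-/

set_option autoImplicit false

open MeasureTheory Filter Metric Topology

namespace Pool.Agent.Results.MP_c35c17_an.LyapunovScaling

open Pool.Agent.H713R2 (IsExteriorMap)

/-- The polynomial `z ^ d + c`. -/
def f (d : ℕ) (c : ℂ) : ℂ → ℂ := fun z => z ^ d + c

/-- The filled Julia set of `z ^ d + c`. -/
def filled (d : ℕ) (c : ℂ) : Set ℂ :=
  {z : ℂ | ¬ Tendsto (fun k => (f d c)^[k] z) atTop (Bornology.cobounded ℂ)}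

/-- `z ^ d + c` has an attracting cycle. -/
def Hyperbolic (d : ℕ) (c : ℂ) : Prop :=
  ∃ (m : ℕ) (z : ℂ), N62a1eb23.IsAttractingCycle (f d c) m z

/-- `0` is a periodic point of `z ^ d + c`. -/
def Superattracting (d : ℕ) (c : ℂ) : Prop :=
  ∃ p : ℕ, 1 ≤ p ∧ (f d c)^[p] 0 = 0 ∧ N62a1eb23.IsAttractingCycle (f d c) p 0

/-- The Collet-Eckmann condition with explicit constants: `c` lies in the Multibrot set and the
derivatives of the iterates of `f d c` at the critical value `c` grow at least like `lam ^ n / C₁`. -/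
def ColletEckmann (d : ℕ) (C₁ lam : ℝ) (c : ℂ) : Prop :=
  c ∈ N62a1eb23.multibrotSet d ∧ ∀ n : ℕ, lam ^ n ≤ C₁ * ‖deriv ((f d c)^[n]) c‖

/-- The critical orbit comes back to the critical point slowly, with the exponent `β`. -/
def Recurrent (d : ℕ) (C₂ β : ℝ) (c : ℂ) : Prop :=
  ∀ n : ℕ, 1 ≤ C₂ * (‖(f d c)^[n] c‖ * ‖deriv ((f d c)^[n]) c‖ ^ β)

/-- The bounds near the parameter `c₀` with the constant `C` and the exponent `σ`. -/
structure Near (d : ℕ) (C σ : ℝ) (c₀ : ℂ) : Prop where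
  area : ∀ r : ℝ, 0 < r → volume (N62a1eb23.multibrotSet d ∩ closedBall c₀ r) ≤
    ENNReal.ofReal (C * r ^ (2 * σ))
  dense : ∀ c ∈ N62a1eb23.multibrotSet d, c ≠ c₀ →
    ∃ c' : ℂ, ‖c' - c‖ ≤ C * ‖c - c₀‖ ^ σ ∧ Superattracting d c'
  escape : ∀ c ∈ N62a1eb23.multibrotSet d, c ≠ c₀ →
    ∃ c' : ℂ, ‖c' - c‖ ≤ C * ‖c - c₀‖ ^ σ ∧ c' ∉ N62a1eb23.multibrotSet d
  julia : ∀ c ∈ N62a1eb23.multibrotSet d, c ≠ c₀ →
    volume (filled d c) ≤ ENNReal.ofReal (C * ‖c - c₀‖ ^ (2 * σ / d))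
  radius : ∀ c ∈ N62a1eb23.multibrotSet d, c ≠ c₀ → ∀ V : Set ℂ, IsOpen V → IsPreconnected V →
    (∀ c' ∈ V, ¬ Hyperbolic d c') → ∀ γ : ℂ → ℂ, DifferentiableOn ℂ γ (ball 0 1) →
      (∀ t ∈ ball (0 : ℂ) 1, γ t ∈ V) → γ 0 = c → ‖deriv γ 0‖ ≤ C * ‖c - c₀‖ ^ σ

/-- The supremum of the radii of the discs contained in a set. -/
noncomputable def inradius (S : Set ℂ) : ℝ := sSup {ρ : ℝ | 0 ≤ ρ ∧ ∃ c : ℂ, ball c ρ ⊆ S}

/-- The exact exponents at the parameter `c₀`. -/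
structure Scaling (d : ℕ) (c₀ : ℂ) : Prop where
  near : ∀ σ : ℝ, 0 ≤ σ → σ < d / ((d : ℝ) - 1) → ∃ C : ℝ, 0 < C ∧ Near d C σ c₀
  areaM : Tendsto (fun r : ℝ => Real.log (volume (N62a1eb23.multibrotSet d ∩ ball c₀ r)).toReal /
    Real.log r) (𝓝[>] 0) (𝓝 (2 * (d / ((d : ℝ) - 1))))
  areaH : Tendsto (fun r : ℝ => Real.log (volume
    ({c | c ∈ N62a1eb23.multibrotSet d ∧ Hyperbolic d c} ∩ ball c₀ r)).toReal /
    Real.log r) (𝓝[>] 0) (𝓝 (2 * (d / ((d : ℝ) - 1))))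
  inradiusM : Tendsto (fun r : ℝ => Real.log (inradius (N62a1eb23.multibrotSet d ∩ ball c₀ r)) /
    Real.log r) (𝓝[>] 0) (𝓝 (d / ((d : ℝ) - 1)))
  inradiusH : Tendsto (fun r : ℝ => Real.log (inradius
    ({c | c ∈ N62a1eb23.multibrotSet d ∧ Hyperbolic d c} ∩ ball c₀ r)) /
    Real.log r) (𝓝[>] 0) (𝓝 (d / ((d : ℝ) - 1)))

/-- Density of hyperbolicity near Collet-Eckmann parameters of the Multibrot sets, with the exact
exponents at the parameters with a positive Lyapunov exponent, in particular at harmonic-almost every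
boundary point. -/
theorem result (d : ℕ) (hd : 2 ≤ d) :
    (∀ C₁ lam C₂ β σ : ℝ, 1 ≤ C₁ → 1 < lam → 0 ≤ β → 0 ≤ σ →
      σ * (1 + β) < d / ((d : ℝ) - 1) → ∃ C : ℝ, 0 < C ∧ ∀ c₀ : ℂ,
        ColletEckmann d C₁ lam c₀ → Recurrent d C₂ β c₀ → Near d C σ c₀) ∧
    (∀ C₁ lam σ : ℝ, 1 ≤ C₁ → 1 < lam → 0 ≤ σ →
      σ * (1 - Real.log lam / (d * Real.log (2 * d))) < 1 → ∃ C : ℝ, 0 < C ∧ ∀ c₀ : ℂ,
        ColletEckmann d C₁ lam c₀ → Near d C σ c₀) ∧
    (∀ (χ : ℝ) (c₀ : ℂ), 0 < χ → c₀ ∈ N62a1eb23.multibrotSet d →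
      Tendsto (fun n : ℕ => Real.log ‖deriv ((f d c₀)^[n]) c₀‖ / n) atTop (𝓝 χ) →
      Scaling d c₀) ∧
    (∃ ψ : ℂ → ℂ, IsExteriorMap (N62a1eb23.multibrotSet d) ψ) ∧
    ∀ ψ : ℂ → ℂ, IsExteriorMap (N62a1eb23.multibrotSet d) ψ →
      ∀ᵐ θ : ℝ, ∃ c₀ ∈ frontier (N62a1eb23.multibrotSet d),
        Tendsto (fun r : ℝ => ψ (r * Complex.exp (θ * Complex.I))) (𝓝[>] 1) (𝓝 c₀) ∧
        Tendsto (fun n : ℕ => Real.log ‖deriv ((f d c₀)^[n]) c₀‖ / n) atTop (𝓝 (Real.log d)) ∧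
        Scaling d c₀ := by
  have hdR : (2 : ℝ) ≤ d := by exact_mod_cast hd
  have hd0 : (0 : ℝ) < d := by linarith
  have hd1 : 0 < (d : ℝ) - 1 := by linarith
  have hE1 : 0 < (d : ℝ) / ((d : ℝ) - 1) := by positivity
  -- the general bound
  have hgen : ∀ C₁ lam C₂ β σ : ℝ, 1 ≤ C₁ → 1 < lam → 0 ≤ β → 0 ≤ σ →
      σ * (1 + β) < d / ((d : ℝ) - 1) → ∃ C : ℝ, 0 < C ∧ ∀ c₀ : ℂ,
        ColletEckmann d C₁ lam c₀ → Recurrent d C₂ β c₀ → Near d C σ c₀ := by
    intro C₁ lam C₂ β σ hC₁ hlam hβ hσ0 hσ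
    by_cases hC₂ : 0 < C₂
    · set t : ℝ := σ * (((d : ℝ) - 1) / d) with ht
      have ht0 : 0 ≤ t := by positivity
      have ht1 : t * (1 + β) < 1 := by
        rw [ht]
        rw [lt_div_iff₀ hd1] at hσ
        have : σ * (((d : ℝ) - 1) / d) * (1 + β) = σ * (1 + β) * ((d : ℝ) - 1) / d := by ring
        rw [this, div_lt_one hd0]
        exact hσ
      have e1 : t * (2 * (d : ℝ) / ((d : ℝ) - 1)) = 2 * σ := by rw [ht]; field_simp
      have e2 : 2 * t / ((d : ℝ) - 1) = 2 * σ / d := by rw [ht]; field_simp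
      have e3 : d * t / ((d : ℝ) - 1) = σ := by rw [ht]; field_simp
      obtain ⟨Ca, hCa, Ha⟩ := Pool.Agent.Y298.CA.area_final hd C₁ lam hC₂ hβ ht0 ht1
      obtain ⟨Cb, hCb, Hb⟩ := Pool.Agent.Y298.SH.CD.upper hd C₁ lam hC₂ hβ ht0 ht1
      rw [e1] at Ha
      rw [e2, e3] at Hb
      refine ⟨Ca + Cb, by positivity, fun c₀ h₀ hrec => ?_⟩
      have hcep := Pool.Agent.Y298.SH.CD.cep_of_mem hd hC₁ hlam h₀.1 h₀.2
      have hpw : ∀ (c : ℂ) (e : ℝ), 0 ≤ ‖c - c₀‖ ^ e := fun c e => by positivity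
      refine ⟨?_, ?_, ?_, ?_, ?_⟩
      · intro r hr
        refine (Ha c₀ hcep hrec r hr).trans (ENNReal.ofReal_le_ofReal ?_)
        have : 0 ≤ Cb * r ^ (2 * σ) := by positivity
        linarith
      · intro c hc hcc
        obtain ⟨-, ⟨c', h1, p, h2, h3, h4⟩, -, -⟩ := Hb c₀ hcep hrec c hc hcc
        refine ⟨c', h1.trans ?_, p, h2, h3, h4⟩
        nlinarith [hpw c σ, mul_nonneg hCa.le (hpw c σ)]
      · intro c hc hcc
        obtain ⟨-, -, ⟨c', h1, h2⟩, -⟩ := Hb c₀ hcep hrec c hc hcc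
        refine ⟨c', h1.trans ?_, h2⟩
        nlinarith [hpw c σ, mul_nonneg hCa.le (hpw c σ)]
      · intro c hc hcc
        obtain ⟨h1, -, -, -⟩ := Hb c₀ hcep hrec c hc hcc
        refine le_trans h1 (ENNReal.ofReal_le_ofReal ?_)
        nlinarith [hpw c (2 * σ / d), mul_nonneg hCa.le (hpw c (2 * σ / d))]
      · intro c hc hcc V hV hVc hno γ hγ hγV hγc
        obtain ⟨-, -, -, h1⟩ := Hb c₀ hcep hrec c hc hcc
        refine (h1 V hV hVc (Or.inl hno) γ hγ hγV hγc).trans ?_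
        nlinarith [hpw c σ, mul_nonneg hCa.le (hpw c σ)]
    · refine ⟨1, one_pos, fun c₀ h₀ hrec => ?_⟩
      exfalso
      have h1 := hrec 0
      have h2 : 0 ≤ ‖(f d c₀)^[0] c₀‖ * ‖deriv ((f d c₀)^[0]) c₀‖ ^ β := by positivity
      nlinarith [not_lt.mp hC₂]
  -- parameters with a Lyapunov exponent
  have key : ∀ (χ : ℝ) (c₀ : ℂ), 0 < χ → c₀ ∈ N62a1eb23.multibrotSet d →
      Tendsto (fun n : ℕ => Real.log ‖deriv ((f d c₀)^[n]) c₀‖ / n) atTop (𝓝 χ) →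
      Scaling d c₀ := by
    intro χ c₀ hχ hc₀ hlim
    have h : Pool.Agent.Y298.CA.Lyap d χ c₀ := ⟨hχ, hc₀, hlim⟩
    have hs := Pool.Agent.Y298.CA.scal_all hd h
    have e1 : 2 * (d : ℝ) / ((d : ℝ) - 1) = 2 * (d / ((d : ℝ) - 1)) := by ring
    refine ⟨?_, ?_, ?_, hs.inM, hs.inH⟩
    · intro σ hσ0 hσ
      obtain ⟨⟨C₁, lam, hc⟩, -⟩ := Pool.Agent.Y674.CA.lya d χ c₀ hd h
      obtain ⟨b, hb0, hb⟩ : ∃ b : ℝ, 0 < b ∧ σ * (1 + b) < d / ((d : ℝ) - 1) := by
        refine ⟨(d / ((d : ℝ) - 1) - σ) / (2 * (σ + 1)), by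
          have : 0 < d / ((d : ℝ) - 1) - σ := by linarith
          positivity, ?_⟩
        have h1 : 0 < d / ((d : ℝ) - 1) - σ := by linarith
        have h2 : σ * ((d / ((d : ℝ) - 1) - σ) / (2 * (σ + 1))) < d / ((d : ℝ) - 1) - σ := by
          rw [← mul_div_assoc, div_lt_iff₀ (by positivity)]
          nlinarith
        linarith
      obtain ⟨C₂, hC₂, hrec⟩ := Pool.Agent.Y298.CA.rec_of_lya Pool.Agent.Y674.CA.lya hd h hb0
      obtain ⟨C, hC, H⟩ := hgen C₁ lam C₂ b σ hc.C1 hc.lam1 hb0.le hσ0 hb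
      exact ⟨C, hC, H c₀ ⟨hc₀, hc.exp⟩ hrec⟩
    · rw [← e1]; exact hs.areaM
    · rw [← e1]; exact hs.areaH
  refine ⟨hgen, ?_, key, ?_⟩
  · intro C₁ lam σ hC₁ hlam hσ0 hσ
    have hl2 : 0 < Real.log (2 * d) := Real.log_pos (by linarith)
    by_cases h4 : lam ≤ 2 * d
    · have h5 : Real.log lam ≤ Real.log (2 * d) := Real.log_le_log (by linarith) h4
      have hb0 : 0 ≤ (1 - Real.log lam / Real.log (2 * d)) / ((d : ℝ) - 1) := by
        apply div_nonneg _ hd1.le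
        rw [sub_nonneg, div_le_one hl2]
        exact h5
      obtain ⟨C, hC, H⟩ := hgen C₁ lam ((d * C₁) ^ (((d : ℝ) - 1)⁻¹))
        ((1 - Real.log lam / Real.log (2 * d)) / ((d : ℝ) - 1)) σ hC₁ hlam hb0 hσ0 (by
          have h6 : 1 + (1 - Real.log lam / Real.log (2 * d)) / ((d : ℝ) - 1) =
              (1 - Real.log lam / (d * Real.log (2 * d))) * (d / ((d : ℝ) - 1)) := by
            field_simp
            ring
          rw [h6, ← mul_assoc]
          calc σ * (1 - Real.log lam / (d * Real.log (2 * d))) * (d / ((d : ℝ) - 1)) <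
              1 * (d / ((d : ℝ) - 1)) := mul_lt_mul_of_pos_right hσ hE1
            _ = _ := one_mul _)
      refine ⟨C, hC, fun c₀ h₀ => H c₀ h₀ ?_⟩
      exact (Pool.Agent.Y298.SH.CD.cep_of_mem hd hC₁ hlam h₀.1 h₀.2).recB
    · refine ⟨1, one_pos, fun c₀ h₀ => ?_⟩
      exact absurd (Pool.Agent.Y298.SH.CD.cep_of_mem hd hC₁ hlam h₀.1 h₀.2).lam_le h4
  · obtain ⟨β, hβ⟩ := Pool.Agent.H713R2.exists_beta (d := d) hd
    refine ⟨⟨_, Pool.Agent.H713R2.exteriorMap_of_beta hβ⟩, ?_⟩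
    intro ψ hψ
    filter_upwards [Pool.Agent.Y272.TY.ae_neg' (Pool.Agent.Y272.TY.typical_all hd hβ)] with θ hθ
    obtain ⟨c₀, A, R, h⟩ := hθ
    obtain ⟨h1, h2, h3⟩ := Pool.Agent.Y298.CA.lyap_of_typ hd hβ h
    exact ⟨c₀, h.frontier hd hβ, h.tendsto_psi hβ hψ, h3, key _ c₀ h1 h2 h3⟩

end Pool.Agent.Results.MP_c35c17_an.LyapunovScaling
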