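import Mathlib
import Pool.Prelude.Def_F_c31e40fa
import Pool.Agent.K3h63.TC.Fin
import Pool.Agent.Y165.TY.Centre

/-!
# The superattracting parameters near a harmonic-typical point of the boundary of the Multibrot set
-/

set_option autoImplicit false

open Filter Topology MeasureTheory Metric

namespace Pool.Agent.Results.MP_c35c17_an.TypicalCentres

open Pool.Agent.H713R2 (IsExteriorMap)

/-- The polynomial `z ^ d + c`. -/
def f (d : ℕ) (c : ℂ) : ℂ → ℂ := fun z => z ^ d + c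

/-- The critical point `0` of `z ^ d + c` is periodic of exact period `p`, so that `z ^ d + c` has a
superattracting cycle of exact period `p`. -/
def Superattracting (d p : ℕ) (c : ℂ) : Prop :=
  N62a1eb23.IsAttractingCycle (f d c) p 0 ∧ ∀ k : ℕ, 1 ≤ k → k < p → (f d c)^[k] 0 ≠ 0

/-- For harmonic-almost every point `c₀` of the boundary of the Multibrot set `M_d`, the distance from
`c₀` to the set of superattracting parameters of period at most `N` is, up to a power of `N`, the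
inverse of the maximum of the derivatives of the first `N` iterates at the critical value; and it is
`d ^ (-N)` up to the factor allowed by the law of the iterated logarithm. There are superattracting
parameters of exact period `N` or `N + 1` at that distance. -/
theorem result (d : ℕ) (hd : 2 ≤ d) :
    (∃ ψ : ℂ → ℂ, IsExteriorMap (N62a1eb23.multibrotSet d) ψ) ∧
    ∀ ψ : ℂ → ℂ, IsExteriorMap (N62a1eb23.multibrotSet d) ψ →
      ∀ᵐ θ : ℝ, ∃ c₀ ∈ frontier (N62a1eb23.multibrotSet d),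
        Tendsto (fun r : ℝ => ψ (r * Complex.exp (θ * Complex.I))) (𝓝[>] 1) (𝓝 c₀) ∧
        ∃ (B : ℝ) (N₀ : ℕ), 0 < B ∧ ∀ N : ℕ, N₀ ≤ N →
          (∀ (p : ℕ) (c : ℂ), p ≤ N → Superattracting d p c →
            (∃ j ≤ N, (N : ℝ) ^ (-B) ≤ ‖deriv ((f d c₀)^[j]) c₀‖ * ‖c - c₀‖) ∧
            Real.exp (-(33 * √(N * Real.log d * Real.log (Real.log N)))) ≤
              (d : ℝ) ^ N * ‖c - c₀‖) ∧
          (∃ (p : ℕ) (c : ℂ), p ≤ N ∧ Superattracting d p c ∧
            ∀ j ≤ N, ‖deriv ((f d c₀)^[j]) c₀‖ * ‖c - c₀‖ ≤ B * Real.log N) ∧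
          (∃ (p : ℕ) (c : ℂ), (p = N ∨ p = N + 1) ∧ Superattracting d p c ∧
            ‖deriv ((f d c₀)^[N]) c₀‖ * ‖c - c₀‖ ≤ B * Real.log N ∧
            (d : ℝ) ^ N * ‖c - c₀‖ ≤
              Real.exp (33 * √(N * Real.log d * Real.log (Real.log N)))) := by
  obtain ⟨β, hβ⟩ := Pool.Agent.H713R2.exists_beta hd
  refine ⟨⟨_, Pool.Agent.H713R2.exteriorMap_of_beta hβ⟩, ?_⟩
  intro ψ hψ
  filter_upwards [Pool.Agent.Y272.TY.ae_neg' (Pool.Agent.Y272.TY.typical_all hd hβ)] with θ hθ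
  obtain ⟨c₀, A, R, h⟩ := hθ
  refine ⟨c₀, h.frontier hd hβ, h.tendsto_psi hβ hψ, ?_⟩
  obtain ⟨B, N₀, hB, H⟩ := Pool.Agent.K3h63.TC.final hd hβ h
  have hder : ∀ j : ℕ, ‖deriv ((f d c₀)^[j]) c₀‖ = ‖Pool.Agent.Y272.TY.MM d c₀ (j + 1)‖ := by
    intro j
    rw [← (Pool.Agent.Y272.TY.deriv_iter hd c₀ j).deriv]
    rfl
  have hsup : ∀ (p : ℕ) (c : ℂ), 1 ≤ p → Pool.Agent.H712R2.P d p c = 0 →
      (∀ k : ℕ, 1 ≤ k → k < p → Pool.Agent.H712R2.P d k c ≠ 0) → Superattracting d p c := by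
    intro p c hp h0 hmin
    exact ⟨Pool.Agent.H548R3.MB.att_of_centre hd hp h0, hmin⟩
  refine ⟨B, N₀ + 1, hB, fun N hN => ?_⟩
  obtain ⟨H1, H2, H3⟩ := H N (by omega)
  refine ⟨?_, ?_, ?_⟩
  · intro p c hp hc
    obtain ⟨⟨j, hj, hj2⟩, h2⟩ := H1 c p hc.1.1 hp hc.1.2.1
    exact ⟨⟨j, hj, by rw [hder]; exact hj2⟩, h2⟩
  · obtain ⟨c, p, hp1, hpN, hp0, h2⟩ := H2
    obtain ⟨q, hq1, hqp, hq0, hmin⟩ := Pool.Agent.K3h63.TC.min_period hp1 hp0
    refine ⟨q, c, (Nat.le_of_dvd (by omega) hqp).trans hpN, hsup q c hq1 hq0 hmin, fun j hj => ?_⟩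
    rw [hder]
    exact h2 j hj
  · obtain ⟨c, p, hp, hp0, hmin, h2, h3⟩ := H3
    have hp1 : 1 ≤ p := by omega
    refine ⟨p, c, hp, hsup p c hp1 hp0 hmin, by rw [hder]; exact h2, h3⟩

end Pool.Agent.Results.MP_c35c17_an.TypicalCentres
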